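import Mathlib
import Pool.Agent.V7H42.KR.Spec2

set_option autoImplicit false

/-! MP_600e55_nt: norms from the residue field lift. -/

open Polynomial

namespace Pool.Agent.V7H72.KR

open Pool.Agent.V7H42.KR Pool.Agent.Y920.EP

theorem aux_apply {A : Type*} [CommRing A] {Q : A[X]} (hQ : Q.Monic) (j : Fin Q.natDegree) :
    AdjoinRoot.powerBasisAux' hQ j = AdjoinRoot.mk Q (X ^ (j : ℕ)) := by
  have h := (AdjoinRoot.powerBasis' hQ).basis_eq_pow j
  rw [map_pow, AdjoinRoot.mk_X]
  exact h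

theorem entry {A : Type*} [CommRing A] {Q : A[X]} (hQ : Q.Monic) (r : A[X])
    (i j : Fin Q.natDegree) :
    Algebra.leftMulMatrix (AdjoinRoot.powerBasisAux' hQ) (AdjoinRoot.mk Q r) i j =
      ((r * X ^ (j : ℕ)) %ₘ Q).coeff i := by
  rw [Algebra.leftMulMatrix_eq_repr_mul, aux_apply, ← map_mul,
    AdjoinRoot.powerBasisAux'_repr_apply_to_fun, AdjoinRoot.modByMonicHom_mk]

/-- norms of monogenic algebras commute with ring homomorphisms -/
theorem map_norm {R S : Type*} [CommRing R] [CommRing S] [Nontrivial S] (f : R →+* S)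
    (P : R[X]) (hP : P.Monic) (P' : S[X]) (hP' : P' = P.map f) (q : R[X]) :
    f (Algebra.norm R (AdjoinRoot.mk P q)) = Algebra.norm S (AdjoinRoot.mk P' (q.map f)) := by
  subst hP'
  have hPf : (P.map f).Monic := hP.map f
  have hdeg : P.natDegree = (P.map f).natDegree := (hP.natDegree_map f).symm
  rw [Algebra.norm_eq_matrix_det (AdjoinRoot.powerBasisAux' hP),
    Algebra.norm_eq_matrix_det (AdjoinRoot.powerBasisAux' hPf), RingHom.map_det]
  rw [← Matrix.det_submatrix_equiv_self (finCongr hdeg)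
    (Algebra.leftMulMatrix (AdjoinRoot.powerBasisAux' hPf) _)]
  congr 1
  ext i j
  rw [RingHom.mapMatrix_apply, Matrix.map_apply, Matrix.submatrix_apply, entry, entry]
  rw [← Polynomial.coeff_map, Polynomial.map_modByMonic f hP, Polynomial.map_mul,
    Polynomial.map_pow, Polynomial.map_X]
  rfl

theorem isUnit_of_norm {F A : Type*} [Field F] [CommRing A] [Algebra F A] [Module.Finite F A]
    (y : A) (h : Algebra.norm F y ≠ 0) : IsUnit y := by
  rw [Algebra.norm_apply] at h
  let e := LinearMap.equivOfDetNeZero (LinearMap.mul F A y) h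
  obtain ⟨z, hz⟩ := e.surjective 1
  exact IsUnit.of_mul_eq_one z hz

theorem t_NLIFT : S_NLIFT := by
  intro F _ p hp O h hh v hv
  obtain ⟨x, hx⟩ := hv
  set k := IsLocalRing.ResidueField O with hk
  set hO : O := ((O.unitGroupMulEquiv ⟨h, hh⟩ : (O : Type)ˣ) : O) with hhO
  have hOF : O.subtype hO = (h : F) := rfl
  have hOk : IsLocalRing.residue O hO = (O.unitGroupToResidueFieldUnits ⟨h, hh⟩ : kˣ) := rfl
  obtain ⟨qb, hqb⟩ := AdjoinRoot.mk_surjective (x : AdjoinRoot (X ^ p -
    C ((O.unitGroupToResidueFieldUnits ⟨h, hh⟩ : kˣ) : k)))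
  obtain ⟨q, hq⟩ := Polynomial.map_surjective (IsLocalRing.residue O)
    IsLocalRing.residue_surjective qb
  set P : O[X] := X ^ p - C hO with hP
  have hPm : P.Monic := monic_X_pow_sub_C _ hp.ne_zero
  have hPk : (X ^ p - C ((O.unitGroupToResidueFieldUnits ⟨h, hh⟩ : kˣ) : k) : k[X]) =
      P.map (IsLocalRing.residue O) := by
    rw [hP, Polynomial.map_sub, Polynomial.map_pow, Polynomial.map_X, Polynomial.map_C, hOk]
  have hPF : (X ^ p - C (h : F) : F[X]) = P.map O.subtype := by
    rw [hP, Polynomial.map_sub, Polynomial.map_pow, Polynomial.map_X, Polynomial.map_C, hOF]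
  set w0 : O := Algebra.norm O (AdjoinRoot.mk P q) with hw0
  have h1 : IsLocalRing.residue O w0 = (v : k) := by
    rw [hw0, map_norm (IsLocalRing.residue O) P hPm _ hPk q, hq, hqb, ← hx]
    rfl
  have hwu : IsUnit w0 := by
    rw [← IsLocalRing.residue_ne_zero_iff_isUnit, h1]
    exact v.ne_zero
  have h2 : O.subtype w0 = Algebra.norm F (AdjoinRoot.mk (X ^ p - C (h : F)) (q.map O.subtype)) :=
    map_norm O.subtype P hPm _ hPF q
  have hwF : (w0 : F) ≠ 0 := by
    intro h3
    have : w0 = 0 := Subtype.ext h3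
    rw [this] at hwu
    exact not_isUnit_zero hwu
  have : Module.Finite F (AdjoinRoot (X ^ p - C (h : F))) :=
    (monic_X_pow_sub_C (h : F) hp.ne_zero).finite_adjoinRoot
  have hy : IsUnit (AdjoinRoot.mk (X ^ p - C (h : F)) (q.map O.subtype)) :=
    isUnit_of_norm _ (by rw [← h2]; exact hwF)
  have hwmem : Units.mk0 (w0 : F) hwF ∈ O.unitGroup := by
    rw [O.mem_unitGroup_iff]
    exact (O.valuation_eq_one_iff w0).mp hwu
  refine ⟨Units.mk0 (w0 : F) hwF, hwmem, ?_, ?_⟩
  · refine ⟨hy.unit, ?_⟩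
    apply Units.ext
    exact h2.symm
  · apply Units.ext
    exact h1

end Pool.Agent.V7H72.KR
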