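import Mathlib
import Pool.Agent.V7H42.KR.Spec

set_option autoImplicit false

/-! MP_600e55_nt: the part `S_PERF`: if `F*/F*^p` is finite and the residue characteristic is `p`,
the residue field is perfect. -/

namespace Pool.Agent.V7H72.KR

open Pool.Agent.V7H42.KR Pool.Agent.Y920.EP

theorem t_PERF : S_PERF := by
  classical
  intro F _ p hp O hfin hpO r hr
  have : Fact p.Prime := ⟨hp⟩
  -- the residue field has characteristic `p`
  have hp0 : IsLocalRing.residue O (p : O) = 0 := by
    rw [IsLocalRing.residue_eq_zero_iff]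
    intro hu
    apply hpO
    obtain ⟨w, hw⟩ := hu
    have h1 : ((p : O) : F) * (((w⁻¹ : Oˣ) : O) : F) = 1 := by
      rw [← hw]
      exact_mod_cast congrArg (fun x : O => (x : F)) (Units.mul_inv w)
    have h2 : (p : F)⁻¹ = (((w⁻¹ : Oˣ) : O) : F) := by
      have : ((p : O) : F) = (p : F) := by push_cast; rfl
      rw [this] at h1
      exact inv_eq_of_mul_eq_one_right h1
    rw [h2]
    exact Subtype.property _
  set k := IsLocalRing.ResidueField O with hk
  have : CharP k p := by
    have h1 : (p : k) = 0 := by simpa using hp0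
    exact (CharP.charP_iff_prime_eq_zero hp).mpr h1
  have hv : O.valuation ((r : Fˣ) : F) = 1 := (O.mem_unitGroup_iff _).mp hr
  have hm : ((r : Fˣ) : F) ∈ O := (O.valuation_le_one_iff _).mp hv.le
  set R : O := ⟨_, hm⟩ with hR
  have hRu : IsUnit R := (O.valuation_eq_one_iff R).mpr hv
  -- it is enough that the residue is a `p`-th power
  have key : ∃ κ : k, κ ^ p = IsLocalRing.residue O R := by
    by_contra hno
    push Not at hno
    have hninj : Infinite k := by
      by_contra hfink
      rw [not_infinite_iff_finite] at hfink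
      have := hfink
      obtain ⟨κ, hκ⟩ := (Finite.injective_iff_surjective.mp (frobenius_inj k p))
        (IsLocalRing.residue O R)
      exact hno κ hκ
    choose y hy using (IsLocalRing.residue_surjective (R := O))
    have hu : ∀ κ : k, IsUnit (R - y κ ^ p) := by
      intro κ
      rw [← IsLocalRing.residue_ne_zero_iff_isUnit]
      rw [map_sub, map_pow, hy, sub_ne_zero]
      exact (hno κ).symm
    let cl : k → Fˣ ⧸ pwG F p := fun κ =>
      ((Units.map O.subtype.toMonoidHom (hu κ).unit : Fˣ) : Fˣ ⧸ pwG F p)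
    obtain ⟨a, b, hab, he⟩ := Finite.exists_ne_map_eq_of_infinite cl
    have h1 := QuotientGroup.eq.mp he
    rw [pwG, MonoidHom.mem_range] at h1
    obtain ⟨τ, hτ⟩ := h1
    have h2 : ((τ : Fˣ) : F) ^ p * ((R - y a ^ p : O) : F) = ((R - y b ^ p : O) : F) := by
      have h3 : (Units.map O.subtype.toMonoidHom (hu a).unit : Fˣ) * τ ^ p
          = Units.map O.subtype.toMonoidHom (hu b).unit := by
        have : (powMonoidHom p) τ = τ ^ p := rfl
        rw [← this, hτ]
        simp
      have h4 := congrArg (fun x : Fˣ => (x : F)) h3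
      simp only [Units.val_mul, Units.val_pow_eq_pow_val] at h4
      rw [mul_comm]
      exact h4
    have hva : O.valuation ((R - y a ^ p : O) : F) = 1 := (O.valuation_eq_one_iff _).mp (hu a)
    have hvb : O.valuation ((R - y b ^ p : O) : F) = 1 := (O.valuation_eq_one_iff _).mp (hu b)
    have hvτ : O.valuation ((τ : Fˣ) : F) = 1 := by
      have h5 := congrArg O.valuation h2
      rw [map_mul, map_pow, hva, hvb, mul_one] at h5
      exact (pow_eq_one_iff_of_nonneg zero_le hp.ne_zero).mp h5
    have hmτ : ((τ : Fˣ) : F) ∈ O := (O.valuation_le_one_iff _).mp hvτ.le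
    set t : O := ⟨_, hmτ⟩ with ht
    have h6 : t ^ p * (R - y a ^ p) = R - y b ^ p := by
      apply Subtype.ext
      have : ((t : O) : F) = ((τ : Fˣ) : F) := rfl
      rw [← this] at h2
      exact_mod_cast h2
    have h7 := congrArg (IsLocalRing.residue O) h6
    simp only [map_mul, map_pow, map_sub, hy] at h7
    set ρ := IsLocalRing.residue O R with hρ
    set σ := IsLocalRing.residue O t with hσ
    by_cases hσ1 : σ = 1
    · rw [hσ1] at h7
      have h8 : a ^ p = b ^ p := by
        have : (1 : k) ^ p * (ρ - a ^ p) = ρ - b ^ p := h7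
        rw [one_pow, one_mul] at this
        exact sub_right_injective this
      exact hab (frobenius_inj k p h8)
    · refine hno ((σ * a - b) / (σ - 1)) ?_
      have h9 : σ - 1 ≠ 0 := sub_ne_zero.mpr hσ1
      rw [div_pow, div_eq_iff (pow_ne_zero _ h9), sub_pow_expChar, sub_pow_expChar, mul_pow,
        one_pow]
      linear_combination -h7
  obtain ⟨κ, hκ⟩ := key
  obtain ⟨z, hz⟩ := IsLocalRing.residue_surjective (R := O) κ
  have hzu : IsUnit z := by
    rw [← IsLocalRing.residue_ne_zero_iff_isUnit, hz]
    intro h0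
    rw [h0, zero_pow hp.ne_zero] at hκ
    exact (IsLocalRing.residue_ne_zero_iff_isUnit R).mpr hRu hκ.symm
  have hzF : ((z : O) : F) ≠ 0 := by
    intro h
    have : z = 0 := Subtype.ext h
    rw [this] at hzu
    exact not_isUnit_zero hzu
  obtain ⟨w, hw⟩ := hzu
  -- `R = z^p (1 + m)`, `m = (R - z^p) w^-p`
  set m : O := (R - z ^ p) * ((w⁻¹ : Oˣ) : O) ^ p with hmdef
  have hmm : m ∈ IsLocalRing.maximalIdeal O := by
    rw [← IsLocalRing.residue_eq_zero_iff, hmdef, map_mul, map_sub, map_pow, hz, hκ, sub_self,
      zero_mul]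
  refine ⟨Units.mk0 (z : F) hzF, ?_, (m : F), ?_, m.2, ?_⟩
  · rw [O.mem_unitGroup_iff]
    exact (O.valuation_eq_one_iff z).mp ⟨w, hw⟩
  · have h1 : z ^ p * (1 + m) = R := by
      have h2 : z ^ p * ((w⁻¹ : Oˣ) : O) ^ p = 1 := by
        rw [← mul_pow, ← hw, Units.mul_inv, one_pow]
      rw [hmdef]
      linear_combination (R - z ^ p) * h2
    have h3 := congrArg (fun x : O => (x : F)) h1
    simp only [Units.val_mk0]
    push_cast at h3
    rw [← hR] at *
    exact h3.symm
  · by_cases hm0 : (m : F) = 0
    · exact Or.inl hm0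
    · right
      intro hinv
      have : IsUnit m := by
        refine IsUnit.of_mul_eq_one (⟨_, hinv⟩ : O) ?_
        apply Subtype.ext
        exact mul_inv_cancel₀ hm0
      exact hmm this

end Pool.Agent.V7H72.KR
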