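import Mathlib
import Pool.Agent.V7H42.KR.Spec

set_option autoImplicit false

/-! MP_600e55_nt: the part `S_RAM`, with the Hales-Jewett theorem. -/

namespace Pool.Agent.V7H72.KR

open Pool.Agent.V7H42.KR

/-- in an infinite field there are elements with all nonempty partial sums nonzero -/
theorem exists_sums {ι k : Type*} [Field k] [Infinite k] [DecidableEq ι] (s : Finset ι) :
    ∃ e : ι → k, ∀ S : Finset ι, S ⊆ s → S.Nonempty → ∑ i ∈ S, e i ≠ 0 := by
  classical
  induction s using Finset.induction_on with
  | empty =>
      exact ⟨fun _ => 0, fun S hS hn => absurd (Finset.subset_empty.mp hS) hn.ne_empty⟩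
  | insert a s ha ih =>
      obtain ⟨e, he⟩ := ih
      obtain ⟨x, hx⟩ := Infinite.exists_notMem_finset
        (s.powerset.image (fun S => - ∑ i ∈ S, e i))
      refine ⟨Function.update e a x, fun S hS hn => ?_⟩
      by_cases haS : a ∈ S
      · rw [← Finset.add_sum_erase S _ haS, Function.update_self]
        have h1 : ∑ i ∈ S.erase a, Function.update e a x i = ∑ i ∈ S.erase a, e i :=
          Finset.sum_congr rfl fun i hi => by
            rw [Function.update_of_ne (Finset.ne_of_mem_erase hi)]
        rw [h1]
        intro h0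
        apply hx
        rw [Finset.mem_image]
        refine ⟨S.erase a, ?_, ?_⟩
        · rw [Finset.mem_powerset]
          intro i hi
          have := hS (Finset.mem_of_mem_erase hi)
          rcases Finset.mem_insert.mp this with h | h
          · exact absurd h (Finset.ne_of_mem_erase hi)
          · exact h
        · exact (eq_neg_of_add_eq_zero_left h0).symm
      · have h1 : ∑ i ∈ S, Function.update e a x i = ∑ i ∈ S, e i :=
          Finset.sum_congr rfl fun i hi => by
            rw [Function.update_of_ne]
            rintro rfl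
            exact haS hi
        rw [h1]
        refine he S ?_ hn
        intro i hi
        rcases Finset.mem_insert.mp (hS hi) with h | h
        · exact absurd (h ▸ hi) haS
        · exact h

theorem t_RAM : S_RAM := by
  classical
  intro F _ T _ O _ hcl hinf b
  choose u hu huc using hcl
  -- the units as elements of O
  have huO : ∀ c, ∃ y : O, IsUnit y ∧ (y : F) = ((u c : Fˣ) : F) := by
    intro c
    have hv : O.valuation ((u c : Fˣ) : F) = 1 := (O.mem_unitGroup_iff _).mp (hu c)
    have hm : ((u c : Fˣ) : F) ∈ O := (O.valuation_le_one_iff _).mp hv.le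
    exact ⟨⟨_, hm⟩, (O.valuation_eq_one_iff ⟨_, hm⟩).mpr hv, rfl⟩
  choose y hy hyu using huO
  let val : Option (Fˣ ⧸ T) → O := fun o => o.elim 0 y
  let col : O → Option (Fˣ ⧸ T) := fun x =>
    if h : IsUnit x then some ((Units.map O.subtype.toMonoidHom h.unit : Fˣ) : Fˣ ⧸ T) else none
  obtain ⟨ι, hι, hHJ⟩ :=
    Combinatorics.Line.exists_mono_in_high_dimension (Option (Fˣ ⧸ T)) (Option (Fˣ ⧸ T))
  obtain ⟨e, he⟩ := exists_sums (k := IsLocalRing.ResidueField O) (Finset.univ : Finset ι)
  choose e' he' using fun i => IsLocalRing.residue_surjective (e i)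
  obtain ⟨l, c, hl⟩ := hHJ (fun w => col (∑ i, e' i * val (w i)))
  set S : Finset ι := Finset.univ.filter (fun i => l.idxFun i = none) with hS
  set v : O := ∑ i ∈ S, e' i with hv
  have hvu : IsUnit v := by
    have h1 : IsLocalRing.residue O v ≠ 0 := by
      rw [hv, map_sum]
      simp only [he']
      refine he S (Finset.subset_univ _) ?_
      obtain ⟨i, hi⟩ := l.proper
      exact ⟨i, by simp [hS, hi]⟩
    exact (IsLocalRing.residue_ne_zero_iff_isUnit v).mp h1
  set X : O := ∑ i, e' i * val (l none i) with hX
  have hsum : ∀ o, ∑ i, e' i * val (l o i) = X + v * val o := by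
    intro o
    rw [hX, hv, Finset.sum_mul, hS, Finset.sum_filter, ← Finset.sum_add_distrib]
    refine Finset.sum_congr rfl fun i _ => ?_
    by_cases hi : l.idxFun i = none
    · rw [l.apply_none _ _ hi, l.apply_none _ _ hi, if_pos hi]
      simp [val]
    · obtain ⟨a, ha⟩ := Option.ne_none_iff_exists'.mp hi
      rw [if_neg hi, add_zero, l.apply_some ha, l.apply_some ha]
  have hcol : ∀ o, col (X + v * val o) = c := by
    intro o
    have := hl o
    simp only [hsum] at this
    exact this
  -- X is a unit
  have hX0 : col X = c := by simpa [val] using hcol none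
  have hXu : IsUnit X := by
    by_contra hXn
    have hc : c = none := by rw [← hX0]; simp only [col]; rw [dif_neg hXn]
    have h1 : ¬ IsUnit (X + v * y 1) := by
      intro h1
      have := hcol (some 1)
      simp only [val, Option.elim, col] at this
      rw [dif_pos h1, hc] at this
      exact absurd this (by simp)
    have h2 : X ∈ IsLocalRing.maximalIdeal O := hXn
    have h3 : X + v * y 1 ∈ IsLocalRing.maximalIdeal O := h1
    have h4 : v * y 1 ∈ IsLocalRing.maximalIdeal O := by
      have := Ideal.sub_mem _ h3 h2
      simpa using this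
    exact h4 (hvu.mul (hy 1))
  have hXF : ((X : O) : F) ≠ 0 := by
    intro h
    have : X = 0 := Subtype.ext h
    rw [this] at hXu
    exact not_isUnit_zero hXu
  have hvF : ((v : O) : F) ≠ 0 := by
    intro h
    have : v = 0 := Subtype.ext h
    rw [this] at hvu
    exact not_isUnit_zero hvu
  have hcX : c = some ((Units.mk0 ((X : O) : F) hXF : Fˣ) : Fˣ ⧸ T) := by
    rw [← hX0]
    simp only [col]
    rw [dif_pos hXu]
    congr 2
    exact Units.ext rfl
  -- the class
  set vX : Fˣ := Units.mk0 ((v : O) : F) hvF * (Units.mk0 ((X : O) : F) hXF)⁻¹ with hvX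
  have hone : ∀ x : O, IsUnit x → ∀ h : ((x : O) : F) ≠ 0, Units.mk0 ((x : O) : F) h ∈ O.unitGroup := by
    intro x hx h
    rw [O.mem_unitGroup_iff]
    exact (O.valuation_eq_one_iff x).mp hx
  refine ⟨vX * u (((vX : Fˣ) : Fˣ ⧸ T)⁻¹ * b), ?_, ?_, ?_⟩
  · exact O.unitGroup.mul_mem (O.unitGroup.mul_mem (hone _ hvu _) (O.unitGroup.inv_mem (hone _ hXu _)))
      (hu _)
  · rw [QuotientGroup.mk_mul, huc]
    simp
  · set d := ((vX : Fˣ) : Fˣ ⧸ T)⁻¹ * b with hd
    have h1 := hcol (some d)
    simp only [val, Option.elim] at h1
    have hYu : IsUnit (X + v * y d) := by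
      by_contra hn
      simp only [col] at h1
      rw [dif_neg hn, hcX] at h1
      exact absurd h1 (by simp)
    have hYF : ((X + v * y d : O) : F) ≠ 0 := by
      intro h
      have : X + v * y d = 0 := Subtype.ext h
      rw [this] at hYu
      exact not_isUnit_zero hYu
    have h2 : c = some ((Units.mk0 ((X + v * y d : O) : F) hYF : Fˣ) : Fˣ ⧸ T) := by
      rw [← h1]
      simp only [col]
      rw [dif_pos hYu]
      congr 2
      exact Units.ext rfl
    have h3 : ((Units.mk0 ((X : O) : F) hXF : Fˣ) : Fˣ ⧸ T)
        = ((Units.mk0 ((X + v * y d : O) : F) hYF : Fˣ) : Fˣ ⧸ T) := by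
      have := hcX.symm.trans h2
      exact Option.some_injective _ this
    have h4 := QuotientGroup.eq.mp h3
    refine ⟨_, h4, ?_⟩
    rw [hvX]
    push_cast
    rw [Units.val_mk0, Units.val_mk0, Units.val_mk0, ← hyu]
    field_simp

end Pool.Agent.V7H72.KR
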